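import Mathlib

namespace Pool.Agent.Results.MP_a21721_al.Sol

/-- Upper triangular 4 by 4 matrices over `ZMod 7` with diagonal `1, s, 1, r`. -/
@[ext] structure T where
  s : ZMod 7
  r : ZMod 7
  a : ZMod 7
  b : ZMod 7
  c : ZMod 7
  d : ZMod 7
  e : ZMod 7
  f : ZMod 7
  h : s * r = 1
  deriving DecidableEq

instance : Mul T := ⟨fun A B => ⟨A.s * B.s, A.r * B.r, B.a + A.a * B.s, B.b + A.a * B.d + A.b,
  B.c + A.a * B.e + A.b * B.f + A.c * B.r, A.s * B.d + A.d, A.s * B.e + A.d * B.f + A.e * B.r,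
  B.f + A.f * B.r, by rw [mul_mul_mul_comm, A.h, B.h, one_mul]⟩⟩

instance : One T := ⟨⟨1, 1, 0, 0, 0, 0, 0, 0, one_mul _⟩⟩

instance : Inv T := ⟨fun A => ⟨A.r, A.s, -A.a * A.r, A.a * A.r * A.d - A.b,
  A.a * (A.r * (-A.d * A.f * A.s + A.e * A.s)) + A.b * A.f * A.s - A.c * A.s, -A.r * A.d,
  -(A.r * (-A.d * A.f * A.s + A.e * A.s)), -A.f * A.s, by rw [mul_comm, A.h]⟩⟩

lemma mul_def (A B : T) : A * B = ⟨A.s * B.s, A.r * B.r, B.a + A.a * B.s, B.b + A.a * B.d + A.b,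
  B.c + A.a * B.e + A.b * B.f + A.c * B.r, A.s * B.d + A.d, A.s * B.e + A.d * B.f + A.e * B.r,
  B.f + A.f * B.r, by rw [mul_mul_mul_comm, A.h, B.h, one_mul]⟩ := rfl

lemma one_def : (1 : T) = ⟨1, 1, 0, 0, 0, 0, 0, 0, one_mul _⟩ := rfl

lemma inv_def (A : T) : A⁻¹ = ⟨A.r, A.s, -A.a * A.r, A.a * A.r * A.d - A.b,
  A.a * (A.r * (-A.d * A.f * A.s + A.e * A.s)) + A.b * A.f * A.s - A.c * A.s, -A.r * A.d,
  -(A.r * (-A.d * A.f * A.s + A.e * A.s)), -A.f * A.s, by rw [mul_comm, A.h]⟩ := rfl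

instance : Group T := Group.ofRightAxioms
  (fun A B C => by ext <;> simp only [mul_def] <;> ring)
  (fun A => by ext <;> simp [mul_def, one_def])
  (fun A => by have := A.h; ext <;> simp only [mul_def, inv_def, one_def] <;> grind)

def K1 : Subgroup T where
  carrier := {A | A.s = 1 ∧ A.r = 1}
  mul_mem' := fun h1 h2 => by simp_all [mul_def]
  one_mem' := ⟨rfl, rfl⟩
  inv_mem' := fun h => ⟨h.2, h.1⟩

def K2 : Subgroup T where
  carrier := {A | A.s = 1 ∧ A.r = 1 ∧ A.a = 0 ∧ A.d = 0 ∧ A.f = 0}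
  mul_mem' := fun h1 h2 => by simp_all [mul_def]
  one_mem' := ⟨rfl, rfl, rfl, rfl, rfl⟩
  inv_mem' := fun h => by simp_all [inv_def]

lemma solv : Group.IsSolvable T := by
  have h1 : derivedSeries T 1 ≤ K1 := Subgroup.commutator_le.2 fun A _ B _ => by
    have := A.h
    have := B.h
    change _ = _ ∧ _ = _
    simp only [commutatorElement_def, mul_def, inv_def]
    grind
  have h2 : derivedSeries T 2 ≤ K2 := (Subgroup.commutator_mono h1 h1).trans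
    (Subgroup.commutator_le.2 fun A ⟨a1, a2⟩ B ⟨b1, b2⟩ => by
      change _ = _ ∧ _ = _ ∧ _ = _ ∧ _ = _ ∧ _ = _
      simp only [commutatorElement_def, mul_def, inv_def, a1, a2, b1, b2]
      grind)
  refine ⟨3, le_bot_iff.1 ((Subgroup.commutator_mono h2 h2).trans (Subgroup.commutator_le.2
    fun A ⟨a1, a2, a3, a4, a5⟩ B ⟨b1, b2, b3, b4, b5⟩ => ?_))⟩
  rw [Subgroup.mem_bot, commutatorElement_eq_one_iff_mul_comm]
  ext <;> simp only [mul_def, a1, a2, a3, a4, a5, b1, b2, b3, b4, b5] <;> ring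

def c0 : T := ⟨1, 1, 0, 0, 6, 0, 0, 0, rfl⟩

def a0 : T := ⟨3, 5, 0, 0, 0, 0, 0, 0, rfl⟩

def h0 : T := ⟨1, 1, 1, 5, 0, 1, 4, 1, rfl⟩

instance : Fact (Nat.Prime 7) := ⟨by norm_num⟩

theorem result : ∃ (H : Type) (_ : Group H), Group.IsSolvable H ∧ Finite H ∧ ∃ c a h : H,
    orderOf c = 7 ∧ orderOf a = 6 ∧ a⁻¹ * c * a = c ^ 5 ∧
      h * (a⁻¹ * h⁻¹ * a) * ((a ^ 2)⁻¹ * h * a ^ 2) = c := by
  refine ⟨T, inferInstance, solv, Finite.of_injective
    (fun A : T => (A.s, A.r, A.a, A.b, A.c, A.d, A.e, A.f)) fun A B h => by ext <;> simp_all,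
    c0, a0, h0, orderOf_eq_prime (by decide +kernel) (by decide +kernel),
    (orderOf_eq_iff (by norm_num)).2 ⟨by decide +kernel, fun m h1 h2 => ?_⟩, by decide +kernel,
    by decide +kernel⟩
  interval_cases m <;> decide +kernel

end Pool.Agent.Results.MP_a21721_al.Sol
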